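import Pool.Agent.W323.PT.Stm

/-! The lexicographic minimum of an intersection is determined by two of the sets. -/

set_option autoImplicit false

namespace Pool.Agent.W584.PT

open Pool.Agent.W323.PT

/-- points before `v` in the lexicographic order -/
def Before (v : Pt) : Set Pt := {u | u.1 < v.1 ∨ (u.1 = v.1 ∧ u.2 < v.2)}

lemma convex_before (v : Pt) : Convex ℝ (Before v) := by
  intro x hx y hy a b ha hb hab
  simp only [Before, Set.mem_setOf_eq] at hx hy ⊢
  simp only [Prod.fst_add, Prod.snd_add, Prod.smul_fst, Prod.smul_snd, smul_eq_mul]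
  have hv1 : v.1 = a * v.1 + b * v.1 := by rw [← add_mul, hab, one_mul]
  have hv2 : v.2 = a * v.2 + b * v.2 := by rw [← add_mul, hab, one_mul]
  rcases ha.eq_or_lt with ha0 | ha0
  · have hb1 : b = 1 := by linarith
    subst hb1
    rw [← ha0]
    simpa using hy
  rcases hb.eq_or_lt with hb0 | hb0
  · have ha1 : a = 1 := by linarith
    subst ha1
    rw [← hb0]
    simpa using hx
  rcases hx with hx | ⟨hx1, hx2⟩
  · left
    have h1 : a * x.1 < a * v.1 := mul_lt_mul_of_pos_left hx ha0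
    have h2 : b * y.1 ≤ b * v.1 := by
      refine mul_le_mul_of_nonneg_left ?_ hb
      rcases hy with hy | ⟨hy1, _⟩
      · exact hy.le
      · exact hy1.le
    linarith
  · rcases hy with hy | ⟨hy1, hy2⟩
    · left
      have h1 : a * x.1 ≤ a * v.1 := mul_le_mul_of_nonneg_left hx1.le ha
      have h2 : b * y.1 < b * v.1 := mul_lt_mul_of_pos_left hy hb0
      linarith
    · right
      refine ⟨?_, ?_⟩
      · rw [hx1, hy1]; linarith
      · have h1 : a * x.2 < a * v.2 := mul_lt_mul_of_pos_left hx2 ha0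
        have h2 : b * y.2 < b * v.2 := mul_lt_mul_of_pos_left hy2 hb0
        linarith

theorem basis : S_Helly → S_Lex → S_Basis := by
  classical
  intro hH hL n C hn hC hu
  obtain ⟨u0, hu0⟩ := hu
  let i0 : Fin n := ⟨0, hn⟩
  have hK : IsCompact (⋂ i, C i) := by
    refine IsCompact.of_isClosed_subset (hC i0).2 ?_ (Set.iInter_subset _ i0)
    exact isClosed_iInter (fun i => (hC i).2.isClosed)
  obtain ⟨v0, hv0, hmin⟩ := hL (⋂ i, C i) hK ⟨u0, Set.mem_iInter.2 hu0⟩
  have hv0C : ∀ k, v0 ∈ C k := Set.mem_iInter.1 hv0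
  set U : Set Pt := Before v0 with hUdef
  let F : Finset (Set Pt) := insert U (Finset.univ.image C)
  have hFconv : ∀ K ∈ F, Convex ℝ K := by
    intro K hKF
    rcases Finset.mem_insert.1 hKF with h | h
    · rw [h]; exact convex_before v0
    · obtain ⟨i, _, rfl⟩ := Finset.mem_image.1 h
      exact (hC i).1
  have hno : ¬ ∃ p, ∀ K ∈ F, p ∈ K := by
    rintro ⟨p, hp⟩
    have hpC : ∀ i, p ∈ C i := fun i =>
      hp (C i) (Finset.mem_insert_of_mem (Finset.mem_image_of_mem C (Finset.mem_univ i)))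
    have hpU : p ∈ U := hp U (Finset.mem_insert_self _ _)
    have hpU' : p.1 < v0.1 ∨ (p.1 = v0.1 ∧ p.2 < v0.2) := hpU
    rcases hmin p (Set.mem_iInter.2 hpC) with h | ⟨h1, h2⟩
    · rcases hpU' with h' | ⟨h', _⟩
      · linarith
      · linarith
    · rcases hpU' with h' | ⟨_, h'⟩
      · linarith
      · linarith
  have hthree : ¬ ∀ A ∈ F, ∀ B ∈ F, ∀ D' ∈ F, ∃ p, p ∈ A ∧ p ∈ B ∧ p ∈ D' := fun h => hno (hH F hFconv h)
  push Not at hthree
  obtain ⟨A, hA, B, hB, D', hD, hABD⟩ := hthree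
  have hidx : ∀ K ∈ F, ∃ i, ∀ p, p ∈ C i → p ∈ U → p ∈ K := by
    intro K hKF
    rcases Finset.mem_insert.1 hKF with h | h
    · exact ⟨i0, fun p _ hp => by rw [h]; exact hp⟩
    · obtain ⟨i, _, rfl⟩ := Finset.mem_image.1 h
      exact ⟨i, fun p hp _ => hp⟩
  have hor : ∀ K ∈ F, K = U ∨ v0 ∈ K := by
    intro K hKF
    rcases Finset.mem_insert.1 hKF with h | h
    · exact Or.inl h
    · obtain ⟨i, _, rfl⟩ := Finset.mem_image.1 h
      exact Or.inr (hv0C i)
  have hfin : ∃ i j, ∀ p, p ∈ C i → p ∈ C j → p ∈ U → False := by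
    obtain ⟨i, hi⟩ := hidx A hA
    obtain ⟨j, hj⟩ := hidx B hB
    obtain ⟨k, hk⟩ := hidx D' hD
    rcases hor A hA with h1 | h1
    · exact ⟨j, k, fun p pj pk pU => hABD p (by rw [h1]; exact pU) (hj p pj pU) (hk p pk pU)⟩
    rcases hor B hB with h2 | h2
    · exact ⟨i, k, fun p pi pk pU => hABD p (hi p pi pU) (by rw [h2]; exact pU) (hk p pk pU)⟩
    rcases hor D' hD with h3 | h3
    · exact ⟨i, j, fun p pi pj pU => hABD p (hi p pi pU) (hj p pj pU) (by rw [h3]; exact pU)⟩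
    exact absurd h3 (hABD v0 h1 h2)
  obtain ⟨i, j, hij⟩ := hfin
  refine ⟨i, j, fun v hv k => ?_⟩
  have hv1 := hv.2 v0 ⟨hv0C i, hv0C j⟩
  have hvU : ¬ (v.1 < v0.1 ∨ (v.1 = v0.1 ∧ v.2 < v0.2)) := fun h => hij v hv.1.1 hv.1.2 h
  push Not at hvU
  obtain ⟨g1, g2⟩ := hvU
  have heq : v = v0 := by
    rcases hv1 with h | ⟨h1, h2⟩
    · linarith
    · have h3 := g2 h1
      exact Prod.ext h1 (le_antisymm h2 h3)
  rw [heq]
  exact hv0C k

end Pool.Agent.W584.PT
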